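import Mathlib
import Pool.Agent.SXF.Stmts

set_option autoImplicit false

/-! Row FML of the squad SXF: the test for formulas over the integers. -/

namespace Pool.Agent.SXF.H99

open MvPolynomial Pool.Agent.Helper78_ACIT Pool.Agent.WBX

theorem value_congr {A : Type} [CommRing A] {x x' : ℕ → A} (vals : List A) (g : Gate)
    (h : ∀ v, g = Gate.var v → x v = x' v) : g.value x vals = g.value x' vals := by
  cases g with
  | zero => rfl
  | one => rfl
  | var j => exact h j rfl
  | add a b => rfl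
  | sub a b => rfl
  | mul a b => rfl

theorem values_congr {A : Type} [CommRing A] {x x' : ℕ → A} (G : List Gate)
    (h : ∀ v, Gate.var v ∈ G → x v = x' v) : values x G = values x' G := by
  have key : ∀ (G : List Gate) (acc : List A), (∀ v, Gate.var v ∈ G → x v = x' v) →
      G.foldl (fun vals g => vals ++ [g.value x vals]) acc =
      G.foldl (fun vals g => vals ++ [g.value x' vals]) acc := by
    intro G
    induction G with
    | nil => intro acc _; rfl
    | cons g G ih =>
      intro acc hG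
      rw [List.foldl_cons, List.foldl_cons,
        value_congr acc g (fun v hv => hG v (by rw [← hv]; exact List.mem_cons_self))]
      exact ih _ (fun v hv => hG v (List.mem_cons_of_mem _ hv))
  exact key G [] h

theorem out_congr {A : Type} [CommRing A] {x x' : ℕ → A} (G : List Gate)
    (h : ∀ v, Gate.var v ∈ G → x v = x' v) : out x G = out x' G := by
  unfold out
  rw [values_congr G h]

theorem polyC_eq {E : Type} [Field E] (n : ℕ) (e : ℕ → E) (G : List Gate)
    (h : ∀ v, Gate.var v ∈ G → v < n) : polyC n e G = map (Int.castRingHom E) (poly G) := by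
  have h1 : map (Int.castRingHom E) (poly G) = out (fun j => (X j : MvPolynomial ℕ E)) G := by
    have := out_map (map (σ := ℕ) (Int.castRingHom E)) X G
    unfold poly
    rw [this]
    simp only [map_X]
  rw [h1]
  unfold polyC
  exact out_congr G (fun v hv => if_pos (h v hv))

theorem out_int (x : ℕ → ℤ) (G : List Gate) : out x G = eval x (poly G) := by
  rw [out_eq_eval]
  rfl

theorem div_le (r s : ℕ) (hr : 1 ≤ r) (hs : s ≤ r ^ 2) : 2 * (s / (r + 1)) ≤ 2 * r - 2 := by
  have h1 : s / (r + 1) < r := by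
    rw [Nat.div_lt_iff_lt_mul (by omega)]
    nlinarith
  omega

/-- The test for formulas. -/
theorem fml (hHit : HitStmt) (hCir : CirStmt) (hIht : IhtStmt) (hSiz : SizStmt) (hDeg : DegStmt)
    (hVal : ValStmt) : FmlStmt := by
  intro n r G hG hext hvar hr hload
  have hpt : ∀ (c : Fin (2 * r - 2) → Fin (n + 1))
      (ξ : Fin (5 * r + 2) → Fin (r ^ 2 * (5 * r + 2) + 1))
      (y z : Fin (2 * r - 2 + 1) → Fin (r ^ 2 * (5 * r + 2) + 1)) (i : ℕ),
      (point n (fun s => (c s : ℕ)) (fun j => ((ξ j : ℕ) : ℤ)) (fun B => ((y B : ℕ) : ℤ))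
        (fun B => ((z B : ℕ) : ℤ)) i).natAbs ≤
        2 ^ ((5 * r + 2 + 2) * (n * r ^ 2 * (5 * r + 2) + (5 * r + 2) + 2)) := by
    intro c ξ y z i
    exact hSiz n (r ^ 2) (2 * r - 2) (5 * r + 2) (fun s => (c s : ℕ)) (fun j => (ξ j : ℕ))
      (fun B => (y B : ℕ)) (fun B => (z B : ℕ)) (fun j => Nat.lt_succ_iff.1 (ξ j).2)
      (fun B => Nat.lt_succ_iff.1 (y B).2) (fun B => Nat.lt_succ_iff.1 (z B).2) i
  refine ⟨⟨fun h c ξ y z => ?_, fun h => ?_⟩, fun c ξ y z a ha => ?_⟩
  · rw [out_int, h.2, map_zero]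
  · refine ⟨hG, ?_⟩
    by_contra hne
    have hD : (poly G).totalDegree ≤ r ^ 2 := (hDeg G n hG hext hvar).trans hload
    have hQ : polyC n (fun _ => (0 : ℚ)) G = map (Int.castRingHom ℚ) (poly G) :=
      polyC_eq n _ G hvar
    have hQ0 : polyC n (fun _ => (0 : ℚ)) G ≠ 0 := by
      rw [hQ]
      intro h0
      apply hne
      exact map_injective (Int.castRingHom ℚ) Int.cast_injective (by rw [h0, map_zero])
    have hN := hCir ℚ n (fun _ => (0 : ℚ)) G hG
    obtain ⟨c, ξ, y, z, hev⟩ := hHit ℚ (fun m => 4 * (m + extra G) + 2) n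
      (∑ v ∈ Finset.range n, load G v) r (2 * r - 2) (5 * r + 2)
      (fun a b hab => by
        show 4 * (a + extra G) + 2 ≤ 4 * (b + extra G) + 2
        omega) (by
        show 4 * (r + extra G) + 2 + r ≤ 5 * r + 2
        omega) (by omega) (div_le r _ hr hload) _ hN hQ0
    obtain ⟨ξ', y', z', hξ, hy, hz, hev'⟩ := hIht ℚ n (r ^ 2) (2 * r - 2) (5 * r + 2) (poly G) hD
      (by omega) (polyC n (fun _ => (0 : ℚ)) G) (fun s => (c s : ℕ)) ⟨ξ, y, z, hev⟩
      (by rw [hQ])
    apply hev'
    rw [← out_int]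
    exact h c (fun j => ⟨ξ' j, Nat.lt_succ_iff.2 (hξ j)⟩) (fun B => ⟨y' B, Nat.lt_succ_iff.2 (hy B)⟩)
      (fun B => ⟨z' B, Nat.lt_succ_iff.2 (hz B)⟩)
  · have h1 := hVal G (2 ^ ((5 * r + 2 + 2) * (n * r ^ 2 * (5 * r + 2) + (5 * r + 2) + 2))) _ hG hext
      Nat.one_le_two_pow (hpt c ξ y z) a ha
    refine h1.trans ?_
    set N := (5 * r + 2 + 2) * (n * r ^ 2 * (5 * r + 2) + (5 * r + 2) + 2) with hN
    have h2 : (5 * r + 4) * (n * r ^ 2 * (5 * r + 2) + 5 * r + 4) = N := by
      rw [hN]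
      ring
    rw [h2]
    calc (2 ^ N + 1) ^ (2 * G.length) ≤ (2 ^ (N + 1)) ^ (2 * G.length) := by
          refine Nat.pow_le_pow_left ?_ _
          rw [pow_succ]
          have := Nat.one_le_two_pow (n := N)
          omega
      _ = 2 ^ (2 * G.length * (N + 1)) := by
          rw [← pow_mul, mul_comm]

end Pool.Agent.SXF.H99
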