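import Mathlib
import Pool.Agent.SXF.Stmts2
import Pool.Agent.Helper99_SXF.FML

set_option autoImplicit false

/-! Row FM2 of the squad SXF: the test for formulas over the integers, generator without cuts. -/

namespace Pool.Agent.SXF.H99

open MvPolynomial Pool.Agent.Helper78_ACIT Pool.Agent.WBX

theorem length_values {A : Type} [CommRing A] (x : ℕ → A) (G : List Gate) :
    (values x G).length = G.length := by
  have key : ∀ (G : List Gate) (acc : List A),
      (G.foldl (fun vals g => vals ++ [g.value x vals]) acc).length = acc.length + G.length := by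
    intro G
    induction G with
    | nil => intro acc; rfl
    | cons g G ih =>
      intro acc
      rw [List.foldl_cons, ih]
      simp only [List.length_append, List.length_cons, List.length_nil]
      omega
  have := key G []
  rw [List.length_nil, zero_add] at this
  exact this

theorem out_eq_getD {A : Type} [CommRing A] (x : ℕ → A) (G : List Gate) :
    out x G = (values x G).getD (G.length - 1) 0 := by
  unfold out
  rw [List.getLastD_eq_getLast?, List.getD_eq_getElem?_getD, ← length_values x G,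
    List.getLast?_eq_getElem?]

theorem gateC_last {E : Type} [Field E] (n : ℕ) (e : ℕ → E) (G : List Gate) :
    gateC n e G (G.length - 1) = polyC n e G := by
  unfold gateC polyC
  rw [out_eq_getD]

/-- The test for formulas. -/
theorem fm2 (hSma : SmaStmt) (hIh2 : Ih2Stmt) (hSi2 : Si2Stmt) (hDeg : DegStmt) (hVal : ValStmt) :
    Fm2Stmt := by
  intro n r G hG hext hvar hr hload
  have hpt : ∀ (c y z : Fin (2 * r - 1) → Fin (r ^ 2 * n * (5 * r + 2) + 1))
      (ξ : Fin (5 * r + 2) → Fin (r ^ 2 * n * (5 * r + 2) + 1)) (i : ℕ),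
      (gen n (fun s => ((c s : ℕ) : ℤ)) (fun s => ((y s : ℕ) : ℤ)) (fun s => ((z s : ℕ) : ℤ))
        (fun j => ((ξ j : ℕ) : ℤ)) i).natAbs ≤
        2 ^ ((n + 5) * (5 * r + 2) *
          (r ^ 2 * n * (5 * r + 2) + n + (2 * r - 1) + (5 * r + 2) + 1)) := by
    intro c y z ξ i
    exact hSi2 n (r ^ 2) (2 * r - 1) (5 * r + 2) (fun s => (c s : ℕ)) (fun s => (y s : ℕ))
      (fun s => (z s : ℕ)) (fun j => (ξ j : ℕ)) (by omega) (fun j => Nat.lt_succ_iff.1 (c j).2)
      (fun B => Nat.lt_succ_iff.1 (y B).2) (fun B => Nat.lt_succ_iff.1 (z B).2)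
      (fun j => Nat.lt_succ_iff.1 (ξ j).2) i
  refine ⟨⟨fun h c y z ξ => ?_, fun h => ?_⟩, fun c y z ξ a ha => ?_⟩
  · rw [out_int, h.2, map_zero]
  · refine ⟨hG, ?_⟩
    by_contra hne
    have hD : (poly G).totalDegree ≤ r ^ 2 := (hDeg G n hG hext hvar).trans hload
    have hQ : polyC n (fun _ => (0 : ℚ)) G = map (Int.castRingHom ℚ) (poly G) :=
      polyC_eq n _ G hvar
    have hQ0 : polyC n (fun _ => (0 : ℚ)) G ≠ 0 := by
      rw [hQ]
      intro h0
      apply hne
      exact map_injective (Int.castRingHom ℚ) Int.cast_injective (by rw [h0, map_zero])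
    have hsm : IsSmall ℚ n (2 * r - 1) (5 * r + 2) (polyC n (fun _ => (0 : ℚ)) G) := by
      refine ⟨∑ v ∈ Finset.range n, load G v, r, ?_, Or.inl ⟨fun _ => (0 : ℚ), G, 1,
        fun _ => G.length - 1, X 0, hG, le_rfl, by omega, ?_⟩⟩
      · have := div_le r _ hr hload
        omega
      · rw [aeval_X, gateC_last]
    obtain ⟨c, y, z, ξ, hev⟩ := hSma ℚ n (2 * r - 1) (5 * r + 2) (by omega) _ hsm hQ0
    obtain ⟨c', y', z', ξ', hc, hy, hz, hξ, hev'⟩ := hIh2 ℚ n (r ^ 2) (2 * r - 1) (5 * r + 2)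
      (poly G) hD (by omega) (polyC n (fun _ => (0 : ℚ)) G) ⟨c, y, z, ξ, hev⟩ (by rw [hQ])
    apply hev'
    rw [← out_int]
    exact h (fun B => ⟨c' B, Nat.lt_succ_iff.2 (hc B)⟩) (fun B => ⟨y' B, Nat.lt_succ_iff.2 (hy B)⟩)
      (fun B => ⟨z' B, Nat.lt_succ_iff.2 (hz B)⟩) (fun j => ⟨ξ' j, Nat.lt_succ_iff.2 (hξ j)⟩)
  · have h1 := hVal G (2 ^ ((n + 5) * (5 * r + 2) *
          (r ^ 2 * n * (5 * r + 2) + n + (2 * r - 1) + (5 * r + 2) + 1))) _ hG hext
      Nat.one_le_two_pow (hpt c y z ξ) a ha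
    refine h1.trans ?_
    set N := (n + 5) * (5 * r + 2) *
          (r ^ 2 * n * (5 * r + 2) + n + (2 * r - 1) + (5 * r + 2) + 1) with hN
    calc (2 ^ N + 1) ^ (2 * G.length) ≤ (2 ^ (N + 1)) ^ (2 * G.length) := by
          refine Nat.pow_le_pow_left ?_ _
          rw [pow_succ]
          have := Nat.one_le_two_pow (n := N)
          omega
      _ = 2 ^ (2 * G.length * (N + 1)) := by
          rw [← pow_mul, mul_comm]

end Pool.Agent.SXF.H99
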